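import Mathlib
import Pool.Agent.R504.MultinomA

set_option autoImplicit false

/-!
# The number of distinct multinomial coefficients (MP_155ab0_nt)

Let `M(n)` be the number of distinct multinomial coefficients with upper entry `n`. Then
`log M(n) ≤ 148 √(n / log n)` for all `n ≥ 3`, and so `log M(n) / √n → 0`. (Together with the known
lower bound `M(n) ≥ p_P(n)`, the number of partitions of `n` into primes, `log M(n)` is of the exact
order `√(n / log n)`.)

Proof. A multinomial coefficient `m` is determined by `N = n! / m = i_1! ⋯ i_k!`, and `N` by its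
exponents `e_p`. By Legendre's formula `e_p` is non-increasing in the prime `p`, and
`e_p ≤ n / (p - 1)`. Let `p_0 < p_1 < …` be the primes, `d_l = e_(p_l) - e_(p_(l+1)) ≥ 0` and
`C(x) = log (1 + x² / T²)`. By partial summation `∑ d_l C(p_l) ≤ 8 n / T`, so
`M(n) ≤ e^(8 n / T) ∑_d ∏ e^(- d_l C(p_l)) ≤ e^(8 n / T) ∏_l (1 + T² / p_l²)`. Chebyshev's bound gives
`∑_p log (1 + T² / p²) ≤ 70 T / log T`, and `T = √(n log n)` is chosen.
-/

namespace Pool.Agent.Results.MP_155ab0_nt.LimitZero

open Finset Pool.Agent.R504.Multinom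

/-- the set of the integers that occur as a multinomial coefficient with upper entry `n`, over all
`k ≥ 1` and all `k`-tuples of non-negative integers with sum `n` -/
def multinomials (n : ℕ) : Set ℕ :=
  {m | ∃ (k : ℕ) (i : Fin k → ℕ), 1 ≤ k ∧ ∑ j, i j = n ∧ m = Nat.multinomial Finset.univ i}

/-- `M(n)`, the number of distinct multinomial coefficients with upper entry `n` -/
noncomputable def M (n : ℕ) : ℕ := (multinomials n).ncard

/-- the `l`-th prime, `l = 0, 1, …` -/
noncomputable def pr (l : ℕ) : ℕ := Nat.nth Nat.Prime l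

lemma pr_prime (l : ℕ) : (pr l).Prime := Nat.nth_mem_of_infinite Nat.infinite_setOfPred_prime _

lemma pr_mono {a b : ℕ} (h : a ≤ b) : pr a ≤ pr b :=
  Nat.nth_monotone Nat.infinite_setOfPred_prime h

lemma pr_strictMono : StrictMono pr := Nat.nth_strictMono Nat.infinite_setOfPred_prime

/-- the exponent of the `l`-th prime in `n! / m` -/
noncomputable def e (n m l : ℕ) : ℕ := padicValNat (pr l) (n.factorial / m)

/-- the differences -/
noncomputable def d (n m l : ℕ) : ℕ := e n m l - e n m (l + 1)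

lemma val_prod {ι : Type*} (p : ℕ) (hp : p.Prime) (s : Finset ι) (f : ι → ℕ) :
    padicValNat p (∏ j ∈ s, (f j).factorial) = ∑ j ∈ s, padicValNat p (f j).factorial := by
  classical
  have := Fact.mk hp
  induction s using Finset.induction_on with
  | empty => simp
  | insert a s ha ih =>
    rw [Finset.prod_insert ha, Finset.sum_insert ha, padicValNat.mul (Nat.factorial_ne_zero _)
      (Finset.prod_ne_zero_iff.2 fun j _ => Nat.factorial_ne_zero _), ih]

lemma spec {n m : ℕ} (hm : m ∈ multinomials n) :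
    ∃ (k : ℕ) (i : Fin k → ℕ), ∑ j, i j = n ∧ n.factorial / m = ∏ j, (i j).factorial ∧
      m * (n.factorial / m) = n.factorial := by
  obtain ⟨k, i, _, hi, rfl⟩ := hm
  have h1 := Nat.multinomial_spec (s := (Finset.univ : Finset (Fin k))) (f := i)
  rw [hi] at h1
  have h2 : n.factorial / Nat.multinomial Finset.univ i = ∏ j, (i j).factorial := by
    rw [← h1]
    exact Nat.mul_div_cancel _ (Nat.multinomial_pos _ _)
  exact ⟨k, i, hi, h2, by rw [h2, mul_comm]; exact h1⟩

lemma e_le {n m : ℕ} (hm : m ∈ multinomials n) (l : ℕ) : (pr l - 1) * e n m l ≤ n := by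
  obtain ⟨k, i, hi, h1, _⟩ := spec hm
  have := Fact.mk (pr_prime l)
  unfold e
  rw [h1, val_prod _ (pr_prime l), Finset.mul_sum, ← hi]
  apply Finset.sum_le_sum
  intro j _
  rw [sub_one_mul_padicValNat_factorial]
  exact Nat.sub_le _ _

lemma e_anti {n m : ℕ} (hm : m ∈ multinomials n) (l : ℕ) : e n m (l + 1) ≤ e n m l := by
  obtain ⟨k, i, _, h1, _⟩ := spec hm
  have := Fact.mk (pr_prime l)
  have := Fact.mk (pr_prime (l + 1))
  unfold e
  rw [h1, val_prod _ (pr_prime l), val_prod _ (pr_prime (l + 1))]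
  apply Finset.sum_le_sum
  intro j _
  have hb1 : Nat.log (pr l) (i j) < i j + 1 :=
    (Nat.log_le_self _ _).trans_lt (Nat.lt_succ_self _)
  have hb2 : Nat.log (pr (l + 1)) (i j) < i j + 1 :=
    (Nat.log_le_self _ _).trans_lt (Nat.lt_succ_self _)
  rw [padicValNat_factorial hb1, padicValNat_factorial hb2]
  apply Finset.sum_le_sum
  intro t _
  exact Nat.div_le_div_left (Nat.pow_le_pow_left (pr_mono (Nat.le_succ l)) t)
    (pow_pos (pr_prime l).pos _)

lemma e_zero {n m : ℕ} (hm : m ∈ multinomials n) : e n m n = 0 := by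
  have h1 := e_le hm n
  have h2 : n + 2 ≤ pr n := Nat.add_two_le_nth_prime n
  by_contra h
  have h3 : 1 ≤ e n m n := Nat.one_le_iff_ne_zero.2 h
  have h4 : (n + 1) * 1 ≤ (pr n - 1) * e n m n := Nat.mul_le_mul (by omega) h3
  omega

lemma e_le_n {n m : ℕ} (hm : m ∈ multinomials n) (l : ℕ) : e n m l ≤ n := by
  have h1 := e_le hm l
  have h2 := (pr_prime l).two_le
  have h3 : 1 * e n m l ≤ (pr l - 1) * e n m l := Nat.mul_le_mul_right _ (by omega)
  omega

/-- a multinomial coefficient is determined by the differences -/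
lemma inj {n m m' : ℕ} (hm : m ∈ multinomials n) (hm' : m' ∈ multinomials n)
    (h : ∀ l < n, d n m l = d n m' l) : m = m' := by
  have h1 : ∀ t, t ≤ n → e n m (n - t) = e n m' (n - t) := by
    intro t
    induction t with
    | zero => intro _; rw [Nat.sub_zero, e_zero hm, e_zero hm']
    | succ t ih =>
      intro ht
      have h2 := ih (by omega)
      have h3 := h (n - (t + 1)) (by omega)
      unfold d at h3
      have h4 : n - (t + 1) + 1 = n - t := by omega
      rw [h4] at h3
      have h5 := e_anti hm (n - (t + 1))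
      have h6 := e_anti hm' (n - (t + 1))
      rw [h4] at h5 h6
      omega
  have h2 : ∀ l < n, e n m l = e n m' l := by
    intro l hl
    have := h1 (n - l) (by omega)
    rwa [show n - (n - l) = l by omega] at this
  obtain ⟨k, i, hi, hN, hmN⟩ := spec hm
  obtain ⟨k', i', hi', hN', hmN'⟩ := spec hm'
  have hpos : n.factorial / m ≠ 0 := by
    intro h0; rw [h0, mul_zero] at hmN; exact Nat.factorial_ne_zero n hmN.symm
  have hpos' : n.factorial / m' ≠ 0 := by
    intro h0; rw [h0, mul_zero] at hmN'; exact Nat.factorial_ne_zero n hmN'.symm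
  have h3 : n.factorial / m = n.factorial / m' := by
    apply Nat.eq_of_factorization_eq hpos hpos'
    intro p
    by_cases hp : p.Prime
    · obtain ⟨l, hl⟩ : ∃ l, pr l = p := by
        have := Nat.range_nth_of_infinite Nat.infinite_setOfPred_prime
        have h4 : p ∈ Set.range (Nat.nth Nat.Prime) := by rw [this]; exact hp
        exact h4
      rw [Nat.factorization_def _ hp, Nat.factorization_def _ hp, ← hl]
      show e n m l = e n m' l
      rcases Nat.lt_or_ge l n with h5 | h5
      · exact h2 l h5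
      · have h6 : ∀ x ∈ multinomials n, e n x l = 0 := by
          intro x hx
          have h7 := e_le hx l
          have h8 : l + 2 ≤ pr l := Nat.add_two_le_nth_prime l
          by_contra h9
          have h10 : 1 ≤ e n x l := Nat.one_le_iff_ne_zero.2 h9
          have h11 : (l + 1) * 1 ≤ (pr l - 1) * e n x l := Nat.mul_le_mul (by omega) h10
          omega
        rw [h6 m hm, h6 m' hm']
    · rw [Nat.factorization_eq_zero_of_not_prime _ hp, Nat.factorization_eq_zero_of_not_prime _ hp]
  rw [← h3] at hmN'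
  exact Nat.eq_of_mul_eq_mul_right (Nat.pos_of_ne_zero hpos) (hmN.trans hmN'.symm)

/-- the weight function -/
noncomputable def C (T x : ℝ) : ℝ := Real.log (T ^ 2 + x ^ 2) - Real.log (T ^ 2)

lemma C_diff (T a b : ℝ) (hT : 0 < T) (ha : 0 ≤ a) (hab : a ≤ b) (hb : 0 < b) :
    (C T b - C T a) / b ≤ 4 * (1 / (T + a) - 1 / (T + b)) := by
  have hmono : MonotoneOn (fun u : ℝ => -(4 * b) * (T + u)⁻¹ - Real.log (T ^ 2 + u ^ 2))
      (Set.Icc 0 b) := by
    apply monotoneOn_of_deriv_nonneg (convex_Icc 0 b)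
    · apply ContinuousOn.sub
      · apply ContinuousOn.mul continuousOn_const
        apply ContinuousOn.inv₀ (by fun_prop)
        intro x hx
        have := hx.1
        positivity
      · apply ContinuousOn.log (by fun_prop)
        intro x _
        positivity
    · intro x hx
      rw [interior_Icc] at hx
      have hx0 : 0 < x := hx.1
      apply DifferentiableAt.differentiableWithinAt
      apply DifferentiableAt.sub
      · apply DifferentiableAt.const_mul
        apply DifferentiableAt.inv (by fun_prop)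
        positivity
      · apply DifferentiableAt.log (by fun_prop)
        positivity
    · intro x hx
      rw [interior_Icc] at hx
      have hx0 : 0 < x := hx.1
      have hxb : x < b := hx.2
      have h1 : HasDerivAt (fun u : ℝ => -(4 * b) * (T + u)⁻¹ - Real.log (T ^ 2 + u ^ 2))
          (-(4 * b) * (-1 / (T + x) ^ 2) - (2 * x) / (T ^ 2 + x ^ 2)) x := by
        apply HasDerivAt.sub
        · apply HasDerivAt.const_mul
          have h2 : HasDerivAt (fun u : ℝ => T + u) 1 x := (hasDerivAt_id x).const_add T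
          exact h2.inv (by positivity)
        · have h2 : HasDerivAt (fun u : ℝ => T ^ 2 + u ^ 2) (2 * x) x := by
            have := ((hasDerivAt_id x).pow 2).const_add (T ^ 2)
            simpa using this
          exact h2.log (by positivity)
      rw [h1.deriv]
      have h2 : (2 * x) / (T ^ 2 + x ^ 2) ≤ (4 * b) / (T + x) ^ 2 := by
        rw [div_le_div_iff₀ (by positivity) (by positivity)]
        have h3 : (T + x) ^ 2 ≤ 2 * (T ^ 2 + x ^ 2) := by nlinarith [sq_nonneg (T - x)]
        calc 2 * x * (T + x) ^ 2 ≤ 2 * x * (2 * (T ^ 2 + x ^ 2)) :=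
              mul_le_mul_of_nonneg_left h3 (by linarith)
          _ ≤ 4 * b * (T ^ 2 + x ^ 2) := by
              have : 0 < T ^ 2 + x ^ 2 := by positivity
              nlinarith
      have h3 : -(4 * b) * (-1 / (T + x) ^ 2) = (4 * b) / (T + x) ^ 2 := by ring
      rw [h3]
      linarith
  have h1 := hmono ⟨ha, hab⟩ ⟨hb.le, le_rfl⟩ hab
  simp only at h1
  rw [div_le_iff₀ hb]
  unfold C
  have h2 : 4 * (1 / (T + a) - 1 / (T + b)) * b = 4 * b * (T + a)⁻¹ - 4 * b * (T + b)⁻¹ := by
    rw [one_div, one_div]; ring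
  rw [h2]
  linarith

lemma C_zero (T : ℝ) : C T 0 = 0 := by simp [C]

/-- `0, p_0, p_1, …` -/
noncomputable def Q (l : ℕ) : ℝ := if l = 0 then 0 else pr (l - 1)

lemma Q_zero : Q 0 = 0 := by simp [Q]

lemma Q_succ (l : ℕ) : Q (l + 1) = pr l := by simp [Q]

lemma weight_le {n m : ℕ} (hm : m ∈ multinomials n) (T : ℝ) (hT : 0 < T) (L : ℕ) :
    ∑ l ∈ range L, ((e n m l : ℝ) - e n m (l + 1)) * C T (pr l) + e n m L * C T (Q L) ≤
      8 * n * (1 / T - 1 / (T + Q L)) := by
  induction L with
  | zero => simp [Q_zero, C_zero]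
  | succ L ih =>
    rw [Finset.sum_range_succ, Q_succ]
    have hp := (pr_prime L).two_le
    have hpR : (2 : ℝ) ≤ pr L := by exact_mod_cast hp
    have hQ0 : 0 ≤ Q L := by
      unfold Q; split_ifs <;> positivity
    have hQle : Q L ≤ pr L := by
      rcases Nat.eq_zero_or_pos L with h | h
      · subst h; rw [Q_zero]; linarith
      · obtain ⟨L', rfl⟩ : ∃ L', L = L' + 1 := ⟨L - 1, by omega⟩
        rw [Q_succ]
        exact_mod_cast pr_mono (Nat.le_succ L')
    have h1 := C_diff T (Q L) (pr L) hT hQ0 hQle (by linarith)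
    have h2 : (pr L : ℝ) * e n m L ≤ 2 * n := by
      have h3 := e_le hm L
      have h4 : pr L * e n m L ≤ 2 * ((pr L - 1) * e n m L) := by
        rw [← mul_assoc]
        exact Nat.mul_le_mul_right _ (by omega)
      exact_mod_cast h4.trans (Nat.mul_le_mul_left 2 h3)
    have h3 : (e n m L : ℝ) * (C T (pr L) - C T (Q L)) ≤
        8 * n * (1 / (T + Q L) - 1 / (T + pr L)) := by
      have h4 : (e n m L : ℝ) * (C T (pr L) - C T (Q L)) =
          ((pr L : ℝ) * e n m L) * ((C T (pr L) - C T (Q L)) / pr L) := by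
        field_simp
      rw [h4]
      have h5 : 0 ≤ 4 * (1 / (T + Q L) - 1 / (T + pr L)) := by
        have : 1 / (T + pr L) ≤ 1 / (T + Q L) :=
          one_div_le_one_div_of_le (by positivity) (by linarith)
        linarith
      calc ((pr L : ℝ) * e n m L) * ((C T (pr L) - C T (Q L)) / pr L)
          ≤ ((pr L : ℝ) * e n m L) * (4 * (1 / (T + Q L) - 1 / (T + pr L))) :=
            mul_le_mul_of_nonneg_left h1 (by positivity)
        _ ≤ (2 * n) * (4 * (1 / (T + Q L) - 1 / (T + pr L))) :=
            mul_le_mul_of_nonneg_right h2 h5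
        _ = _ := by ring
    nlinarith

lemma total_weight {n m : ℕ} (hm : m ∈ multinomials n) (T : ℝ) (hT : 0 < T) :
    ∑ l ∈ range n, (d n m l : ℝ) * C T (pr l) ≤ 8 * n / T := by
  have h1 := weight_le hm T hT n
  rw [e_zero hm] at h1
  have h2 : ∑ l ∈ range n, (d n m l : ℝ) * C T (pr l) =
      ∑ l ∈ range n, ((e n m l : ℝ) - e n m (l + 1)) * C T (pr l) := by
    apply Finset.sum_congr rfl
    intro l _
    unfold d
    rw [Nat.cast_sub (e_anti hm l)]
  rw [h2]
  have hQ0 : 0 ≤ Q n := by unfold Q; split_ifs <;> positivity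
  have h3 : 8 * (n : ℝ) * (1 / T - 1 / (T + Q n)) ≤ 8 * n / T := by
    have h4 : 0 ≤ 1 / (T + Q n) := by positivity
    have h5 : 8 * (n : ℝ) * (1 / T - 1 / (T + Q n)) ≤ 8 * n * (1 / T) :=
      mul_le_mul_of_nonneg_left (by linarith) (by positivity)
    have h6 : 8 * (n : ℝ) * (1 / T) = 8 * n / T := by ring
    linarith
  simp only [Nat.cast_zero, zero_mul, add_zero] at h1
  linarith

lemma multinomials_finite (n : ℕ) : (multinomials n).Finite := by
  apply Set.Finite.subset (Nat.divisors n.factorial).finite_toSet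
  intro m hm
  obtain ⟨_, _, _, _, h⟩ := spec hm
  rw [Finset.mem_coe, Nat.mem_divisors]
  exact ⟨Dvd.intro _ h, Nat.factorial_ne_zero n⟩

/-- the ratio `e^(-C(p_l))` -/
noncomputable def r (T : ℝ) (l : ℕ) : ℝ := T ^ 2 / (T ^ 2 + (pr l : ℝ) ^ 2)

lemma r_pos (T : ℝ) (hT : 0 < T) (l : ℕ) : 0 < r T l := by unfold r; positivity

lemma r_eq (T : ℝ) (hT : 0 < T) (l : ℕ) : r T l = Real.exp (-C T (pr l)) := by
  unfold C r
  rw [neg_sub, Real.exp_sub, Real.exp_log (by positivity), Real.exp_log (by positivity)]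

lemma geom_le (T : ℝ) (hT : 0 < T) (l B : ℕ) :
    ∑ t ∈ range B, r T l ^ t ≤ 1 + T ^ 2 / (pr l : ℝ) ^ 2 := by
  have hp : (0 : ℝ) < pr l := by exact_mod_cast (pr_prime l).pos
  have h1 : r T l < 1 := by
    unfold r
    rw [div_lt_one (by positivity)]
    have : 0 < (pr l : ℝ) ^ 2 := by positivity
    linarith
  have h2 : 1 + T ^ 2 / (pr l : ℝ) ^ 2 = (1 - r T l)⁻¹ := by
    unfold r
    have h3 : (0 : ℝ) < T ^ 2 + (pr l : ℝ) ^ 2 := by positivity
    have h4 : (1 - T ^ 2 / (T ^ 2 + (pr l : ℝ) ^ 2)) = (pr l : ℝ) ^ 2 / (T ^ 2 + (pr l : ℝ) ^ 2) := by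
      field_simp
      ring
    rw [h4, inv_div]
    field_simp
    ring
  rw [h2, ← tsum_geometric_of_lt_one (r_pos T hT l).le h1]
  exact (summable_geometric_of_lt_one (r_pos T hT l).le h1).sum_le_tsum _
    (fun _ _ => pow_nonneg (r_pos T hT l).le _)

/-- Rankin's bound -/
lemma rankin (n : ℕ) (T : ℝ) (hT : 0 < T) :
    (M n : ℝ) ≤ Real.exp (8 * n / T) * ∏ l : Fin n, (1 + T ^ 2 / (pr l : ℝ) ^ 2) := by
  classical
  set S := (multinomials_finite n).toFinset with hS
  have hmem : ∀ m, m ∈ S ↔ m ∈ multinomials n := fun m => (multinomials_finite n).mem_toFinset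
  have hM : (M n : ℝ) = ∑ m ∈ S, (1 : ℝ) := by
    unfold M
    rw [Set.ncard_eq_toFinset_card _ (multinomials_finite n)]
    simp [hS]
  set G : (Fin n → ℕ) → ℝ := fun x => ∏ l : Fin n, r T l ^ x l with hG
  have hG0 : ∀ x, 0 ≤ G x := fun x => Finset.prod_nonneg fun l _ => pow_nonneg (r_pos T hT _).le _
  set D : ℕ → (Fin n → ℕ) := fun m l => d n m l with hD
  have h1 : ∀ m ∈ S, (1 : ℝ) ≤ Real.exp (8 * n / T) * G (D m) := by
    intro m hm
    have h2 := total_weight ((hmem m).1 hm) T hT
    have h3 : G (D m) = Real.exp (-∑ l ∈ range n, (d n m l : ℝ) * C T (pr l)) := by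
      simp only [hG, hD]
      rw [← Finset.sum_neg_distrib, Real.exp_sum,
        ← Fin.prod_univ_eq_prod_range (fun l => Real.exp (-((d n m l : ℝ) * C T (pr l)))) n]
      apply Finset.prod_congr rfl
      intro l _
      rw [r_eq T hT, ← Real.exp_nat_mul]
      congr 1
      ring
    rw [h3, ← Real.exp_add]
    apply Real.one_le_exp
    linarith
  have hinj : Set.InjOn D S := by
    intro m hm m' hm' h
    apply inj ((hmem m).1 hm) ((hmem m').1 hm')
    intro l hl
    exact congrFun h ⟨l, hl⟩
  have hsub : S.image D ⊆ Fintype.piFinset fun _ : Fin n => range (n + 1) := by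
    intro x hx
    obtain ⟨m, hm, rfl⟩ := Finset.mem_image.1 hx
    rw [Fintype.mem_piFinset]
    intro l
    rw [Finset.mem_range]
    have := e_le_n ((hmem m).1 hm) l
    simp only [hD, d]
    omega
  calc (M n : ℝ) = ∑ m ∈ S, (1 : ℝ) := hM
    _ ≤ ∑ m ∈ S, Real.exp (8 * n / T) * G (D m) := Finset.sum_le_sum h1
    _ = Real.exp (8 * n / T) * ∑ m ∈ S, G (D m) := by rw [Finset.mul_sum]
    _ = Real.exp (8 * n / T) * ∑ x ∈ S.image D, G x := by rw [Finset.sum_image hinj]
    _ ≤ Real.exp (8 * n / T) * ∑ x ∈ Fintype.piFinset fun _ : Fin n => range (n + 1), G x := by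
        apply mul_le_mul_of_nonneg_left _ (Real.exp_pos _).le
        exact Finset.sum_le_sum_of_subset_of_nonneg hsub fun x _ _ => hG0 x
    _ = Real.exp (8 * n / T) * ∏ l : Fin n, ∑ t ∈ range (n + 1), r T l ^ t := by
        rw [Finset.prod_univ_sum]
    _ ≤ Real.exp (8 * n / T) * ∏ l : Fin n, (1 + T ^ 2 / (pr l : ℝ) ^ 2) := by
        apply mul_le_mul_of_nonneg_left _ (Real.exp_pos _).le
        apply Finset.prod_le_prod
        · intro l _
          exact Finset.sum_nonneg fun t _ => pow_nonneg (r_pos T hT _).le _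
        · intro l _
          exact geom_le T hT l (n + 1)

lemma M_pos (n : ℕ) : 0 < M n := by
  unfold M
  rw [Set.ncard_pos (multinomials_finite n)]
  exact ⟨_, 1, fun _ => n, le_rfl, by simp, rfl⟩

lemma log_M_le (n : ℕ) (T : ℝ) (hT : 1 < T) :
    Real.log (M n) ≤ 8 * n / T + 70 * (T / Real.log T) := by
  have hT0 : 0 < T := by linarith
  have h1 := rankin n T hT0
  have h2 : 0 < (M n : ℝ) := by exact_mod_cast M_pos n
  have h3 := Real.log_le_log h2 h1
  have hpos : ∀ l : Fin n, 0 < 1 + T ^ 2 / (pr l : ℝ) ^ 2 := fun l => by positivity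
  rw [Real.log_mul (Real.exp_pos _).ne' (Finset.prod_ne_zero_iff.2 fun l _ => (hpos l).ne'),
    Real.log_exp, Real.log_prod (fun l _ => (hpos l).ne')] at h3
  have h4 : ∑ l : Fin n, Real.log (1 + T ^ 2 / (pr l : ℝ) ^ 2) ≤ 70 * (T / Real.log T) := by
    have h5 : ∑ l : Fin n, Real.log (1 + T ^ 2 / (pr l : ℝ) ^ 2) =
        ∑ l ∈ range n, F T (pr l) :=
      Fin.sum_univ_eq_sum_range (fun l => F T (pr l)) n
    rw [h5]
    have h6 : ∑ l ∈ range n, F T (pr l) = ∑ p ∈ (range n).image pr, F T (p : ℕ) := by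
      rw [Finset.sum_image fun a _ b _ h => pr_strictMono.injective h]
    rw [h6]
    refine le_trans ?_ (prime_sum T hT (pr n))
    apply Finset.sum_le_sum_of_subset_of_nonneg
    · intro p hp
      obtain ⟨l, hl, rfl⟩ := Finset.mem_image.1 hp
      rw [Finset.mem_filter, Finset.mem_Icc]
      exact ⟨⟨(pr_prime l).one_lt.le, pr_mono (Finset.mem_range.1 hl).le⟩, pr_prime l⟩
    · intro p _ _
      exact F_nonneg _ _
  linarith

lemma bound (n : ℕ) (hn : 3 ≤ n) : Real.log (M n) ≤ 148 * Real.sqrt (n / Real.log n) := by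
  have hnR : (3 : ℝ) ≤ n := by exact_mod_cast hn
  have hlog : 1 ≤ Real.log n := by
    rw [Real.le_log_iff_exp_le (by linarith)]
    have := Real.exp_one_lt_d9
    linarith
  set T := Real.sqrt (n * Real.log n) with hT
  have hTsq : T ^ 2 = n * Real.log n := Real.sq_sqrt (by positivity)
  have hnT : (n : ℝ) ≤ T ^ 2 := by rw [hTsq]; nlinarith
  have hT1 : 1 < T := by
    by_contra h
    push Not at h
    have h0 : 0 ≤ T := Real.sqrt_nonneg _
    nlinarith
  have h1 := log_M_le n T hT1
  have hT0 : 0 < T := by linarith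
  set R := Real.sqrt (n / Real.log n) with hR
  have hR0 : 0 ≤ R := Real.sqrt_nonneg _
  have hRT : R * Real.log n = T := by
    have h3 : (0 : ℝ) ≤ n / Real.log n := by positivity
    have h4 : (R * Real.log n) ^ 2 = T ^ 2 := by
      rw [mul_pow, hR, Real.sq_sqrt h3, hTsq]
      field_simp
    have h5 : 0 ≤ R * Real.log n := by positivity
    nlinarith [sq_nonneg (R * Real.log n - T), sq_nonneg (R * Real.log n + T)]
  have hRTn : R * T = n := by
    rw [hR, hT, ← Real.sqrt_mul (by positivity)]
    have : (n : ℝ) / Real.log n * (n * Real.log n) = n ^ 2 := by field_simp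
    rw [this, Real.sqrt_sq (by linarith)]
  have h2 : 8 * (n : ℝ) / T = 8 * R := by
    rw [div_eq_iff hT0.ne', ← hRTn]; ring
  have h3 : Real.log n ≤ 2 * Real.log T := by
    have := Real.log_le_log (by linarith) hnT
    rwa [Real.log_pow, Nat.cast_ofNat] at this
  have hlT : 0 < Real.log T := Real.log_pos hT1
  have h4 : T / Real.log T ≤ 2 * R := by
    rw [div_le_iff₀ hlT]
    calc T = R * Real.log n := hRT.symm
      _ ≤ R * (2 * Real.log T) := mul_le_mul_of_nonneg_left h3 hR0
      _ = 2 * R * Real.log T := by ring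
  rw [h2] at h1
  linarith

theorem result : (∀ n : ℕ, 3 ≤ n → Real.log (M n) ≤ 148 * Real.sqrt (n / Real.log n)) ∧
    Filter.Tendsto (fun n : ℕ => Real.log (M n) / Real.sqrt n) Filter.atTop (nhds 0) := by
  refine ⟨bound, ?_⟩
  have h1 : Filter.Tendsto (fun n : ℕ => 148 / Real.sqrt (Real.log n)) Filter.atTop (nhds 0) := by
    apply Filter.Tendsto.div_atTop tendsto_const_nhds
    exact Real.tendsto_sqrt_atTop.comp (Real.tendsto_log_atTop.comp tendsto_natCast_atTop_atTop)
  apply squeeze_zero' _ _ h1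
  · filter_upwards with n
    have : 0 ≤ Real.log (M n) := Real.log_nonneg (by exact_mod_cast M_pos n)
    positivity
  · filter_upwards [Filter.eventually_ge_atTop 3] with n hn
    have h2 := bound n hn
    have hnR : (3 : ℝ) ≤ n := by exact_mod_cast hn
    have hs : 0 < Real.sqrt n := Real.sqrt_pos.2 (by linarith)
    rw [div_le_iff₀ hs]
    rw [Real.sqrt_div (by linarith)] at h2
    calc Real.log (M n) ≤ 148 * (Real.sqrt n / Real.sqrt (Real.log n)) := h2
      _ = 148 / Real.sqrt (Real.log n) * Real.sqrt n := by ring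

end Pool.Agent.Results.MP_155ab0_nt.LimitZero
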